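import Pool.Agent.Q193.LT.Origin

/-!
# Algebro-geometric variations of Hodge structure and families of cubics `T(x, y, z) = 1`

For an irreducible complex variety `B` with function field `K b` let `A b` be the abelian category of the
complex variations of Hodge structures on (small) dense open parts of `B` that are admissible and
graded-polarizable; its simple objects are the irreducible polarizable complex variations of pure Hodge
structures. For a separated scheme `Y` of finite type over `K b` (the generic fibre of a family over a dense
open part of `B`) let `(D b).H i Y` be the variation of mixed Hodge structures `R^i π_! ℂ` carried by the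
cohomology with compact supports of the fibres. The standard properties are `IsCompact (D b)` (long exact
sequences, affine bundles, products with `𝔾_m`), and `Generated (D b)` expresses the resolution of
singularities (Hironaka): the smooth projective schemes of dimension at most `n` generate the cohomology with
compact supports of all schemes of dimension at most `n`.

`Γ` is the set of the germs of complex variations at the points of `𝒰^cl` obtained from the genus-zero
Gromov-Witten invariants of `V`. `Loc γ b n S` says that the germ `γ` is locally equivalent (by a local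
biholomorphism of the bases, up to reindexing) to the filtered flat bundle `S_1 ⊕ ⋯ ⊕ S_n`, `S_j` in `A b`.

The variation of pure Hodge structures carried by the cohomology of the fibres of a family of smooth
projective varieties is semisimple (Deligne). So a germ is algebro-geometric if and only if it is locally
equivalent to `S_1 ⊕ ⋯ ⊕ S_n`, with simple `S_j` each of which is, up to a Tate twist (a reindexing), a
subquotient of the cohomology `H^i(Y)` of a smooth projective family `Y` over a dense open part of one and
the same `B` (for different `j` the families can be put together by disjoint unions and products with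
projective spaces and elliptic curves). This is `AlgGeo`; in `AlgGeoDim d` the families have the relative
dimension at most `d`.

**Theorem.** (1) Q1 holds for `V` if and only if every germ `γ` in `Γ` is locally equivalent to a direct sum of
simple variations over some `B` each of which is, up to a Tate twist, constant of rank one of type `(0, 0)`
(a subquotient of `H^i_c(Spec K)`) or a subquotient of the variation `H^i_c(T_t = 1)`, for some `i`, of a
family `{T_t(x, y, z) = 1}` of affine cubic hypersurfaces over a dense open part of `B`, `T` a trilinear form
with coefficients in the function field of `B`.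

(2) For every `d`, the germ `γ` is locally equivalent to a sum of subquotients (up to Tate twists) of the
cohomology of smooth projective families of relative dimension at most `d` if and only if this holds with
the trilinear forms `T` such that one of the three blocks of variables has at most `d + 2` variables.
-/

set_option autoImplicit false

open CategoryTheory CategoryTheory.Limits AlgebraicGeometry Pool.Agent.Y116.UV Pool.Agent.Z125.UN
  Pool.Agent.Q193.LT

universe v u

namespace Pool.Agent.Results.MP_a4dd1d_ag.FamiliesOfCubics

variable {ι : Type} {K : ι → Type} [∀ b, Field (K b)] {A : ι → Type u} [∀ b, Category.{v} (A b)]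
  [∀ b, Abelian (A b)] {Γ : Type}

/-- `γ` is locally equivalent to a direct sum of simple variations `S_j` over some base `b` with `P b S_j`. -/
def LocSum (Loc : Γ → ∀ (b : ι) (n : ℕ), (Fin n → A b) → Prop) (P : ∀ b, A b → Prop) (γ : Γ) : Prop :=
  ∃ (b : ι) (n : ℕ) (S : Fin n → A b), (∀ j, Simple (S j)) ∧ Loc γ b n S ∧ ∀ j, P b (S j)

/-- The germ `γ` is algebro-geometric. -/
def AlgGeo (D : ∀ b, CompactData (K b) (A b)) (Loc : Γ → ∀ (b : ι) (n : ℕ), (Fin n → A b) → Prop)
    (γ : Γ) : Prop :=
  LocSum Loc (fun b S => ∃ Y : Sch (K b), SmoothProj Y ∧ ∃ i, Occurs (D b) S ((D b).H i Y)) γ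

/-- The germ `γ` comes from smooth projective families of relative dimension at most `d`. -/
def AlgGeoDim (D : ∀ b, CompactData (K b) (A b)) (Loc : Γ → ∀ (b : ι) (n : ℕ), (Fin n → A b) → Prop)
    (d : ℕ) (γ : Γ) : Prop :=
  LocSum Loc (fun b S => ∃ Y : Sch (K b), SmoothProj Y ∧ topologicalKrullDim Y.left ≤ d ∧
    ∃ i, Occurs (D b) S ((D b).H i Y)) γ

lemma locSum_congr {Loc : Γ → ∀ (b : ι) (n : ℕ), (Fin n → A b) → Prop} {P Q : ∀ b, A b → Prop}
    (h : ∀ b (S : A b), Simple S → (P b S ↔ Q b S)) (γ : Γ) : LocSum Loc P γ ↔ LocSum Loc Q γ := by
  constructor
  · rintro ⟨b, n, S, hS, hl, hp⟩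
    exact ⟨b, n, S, hS, hl, fun j => (h b (S j) (hS j)).mp (hp j)⟩
  · rintro ⟨b, n, S, hS, hl, hp⟩
    exact ⟨b, n, S, hS, hl, fun j => (h b (S j) (hS j)).mpr (hp j)⟩

/-- **Algebro-geometric variations and families of cubic hypersurfaces.** See the explanations above. -/
theorem result [∀ b, CharZero (K b)] {D : ∀ b, CompactData (K b) (A b)} (hD : ∀ b, IsCompact (D b))
    (hironaka : ∀ b, Generated (D b)) (Loc : Γ → ∀ (b : ι) (n : ℕ), (Fin n → A b) → Prop) :
    ((∀ γ, AlgGeo D Loc γ) ↔ ∀ γ, LocSum Loc (fun b S =>
      (∃ i, Occurs (D b) S ((D b).H i (aff (K b) (K b)))) ∨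
      ∃ (p q r : ℕ) (T : Fin p → Fin q → Fin r → K b), ∃ i, Occurs (D b) S ((D b).H i (hypS T))) γ) ∧
    ∀ (d : ℕ) (γ : Γ), AlgGeoDim D Loc d γ ↔ LocSum Loc (fun b S =>
      (∃ i, Occurs (D b) S ((D b).H i (aff (K b) (K b)))) ∨
      ∃ (p q r : ℕ) (T : Fin p → Fin q → Fin r → K b), (p ≤ d + 2 ∨ q ≤ d + 2 ∨ r ≤ d + 2) ∧
        ∃ i, Occurs (D b) S ((D b).H i (hypS T))) γ := by
  constructor
  · refine forall_congr' fun γ => locSum_congr (fun b S hS => ?_) γ
    exact origin_proj_all (hD b) S (hironaka b)
  · intro d γ
    refine locSum_congr (fun b S hS => ?_) γ
    exact origin_proj (hD b) S (hironaka b) d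

end Pool.Agent.Results.MP_a4dd1d_ag.FamiliesOfCubics
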